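import Mathlib
import Pool.Agent.H87.D2GDef
import Pool.Agent.H87.GurDef
import Pool.Agent.H87.Gur2

namespace Pool.Agent.Results.MP_c7f7e8_an.Q1No

open Pool.Agent.H87.D2G Pool.Agent.H87.Gur

/-- The isomorphism class of the Gurarii space is a countable intersection of open sets neither
in the space of pseudonorm codes nor in the space of norm codes. -/
theorem result (G : Type) [NormedAddCommGroup G] [NormedSpace ℝ G] [CompleteSpace G]
    (hG : IsGurarii G) : ¬ IsGδ (isoClass PInf G) ∧ ¬ IsGδ (isoClass BInf G) :=
  ⟨main hG _ fun _ h => h.1, main hG _ subset_rfl⟩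

end Pool.Agent.Results.MP_c7f7e8_an.Q1No
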